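import Pool.Agent.U62.BM.Rate
import Pool.Agent.X280.HP.Sec5

/-!
# The original products of Birch and Swinnerton-Dyer for almost all members of families with marked points

For an elliptic curve `E` over `ℚ` let `P(x)` be the product of `N_p / p` over the good primes `p ≤ x` (a finite number of
primes does not matter for the question).  Birch and Swinnerton-Dyer expected `P(x) ~ A (log x) ^ r`.

For the curves with `r = 0`, `1`, `2` or `6` marked points, with coefficients of absolute value at most `H`, we show that for all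
but a proportion `K / A ^ 4` of the curves, and for ALL `3 ≤ x ≤ H ^ (1/11)` at the same time,

  `|log P(x) - (r + 1/2) log log x| ≤ A (1 + log log x) ^ (1/2) (1 + log (1 + log log x)) ^ (1/4 + δ)`.

So almost all curves of height `H` follow the power `(log x) ^ (r + 1/2)` up to a power of the height, with an error which is,
on the scale `l = log log x`, almost that of the law of the iterated logarithm (`l ^ (1/2)` is the order of the fluctuations).
-/

set_option autoImplicit false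

namespace Pool.Agent.Results.MP_3283e1_nt.AlmostAllCurves

open Finset Filter MeasureTheory ProbabilityTheory

/-- The number of the points modulo `p` of the Weierstrass equation `E`, including the point at infinity. -/
noncomputable def numPoints (E : WeierstrassCurve ℤ) (p : ℕ) : ℕ :=
  Nat.card {q : ZMod p × ZMod p // q.2 ^ 2 + (E.a₁ : ZMod p) * q.1 * q.2 + (E.a₃ : ZMod p) * q.2 =
    q.1 ^ 3 + (E.a₂ : ZMod p) * q.1 ^ 2 + (E.a₄ : ZMod p) * q.1 + (E.a₆ : ZMod p)} + 1

open Classical in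
/-- The product of `N_p / p` over the primes `p ≤ x` which do not divide `2 Δ`. -/
noncomputable def product (E : WeierstrassCurve ℤ) (x : ℕ) : ℝ :=
  ∏ p ∈ (range (x + 1)).filter (fun p : ℕ => p.Prime ∧ ¬ (p : ℤ) ∣ 2 * E.Δ), ((numPoints E p : ℝ) / p)

/-- The point `q` lies on the curve `E`. -/
def On (E : WeierstrassCurve ℤ) (q : ℤ × ℤ) : Prop :=
  q.2 ^ 2 + E.a₁ * q.1 * q.2 + E.a₃ * q.2 = q.1 ^ 3 + E.a₂ * q.1 ^ 2 + E.a₄ * q.1 + E.a₆

/-- `y² = x³ + c₀ x + c₁`. -/
def curves0 (c : Fin 2 → ℤ) : WeierstrassCurve ℤ := ⟨0, 0, 0, c 0, c 1⟩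

/-- `y² + c₀ x y + c₂ y = x³ + c₁ x² + c₃ x`, with the point `(0, 0)`. -/
def curves1 (c : Fin 4 → ℤ) : WeierstrassCurve ℤ := ⟨c 0, c 1, c 2, c 3, 0⟩

/-- `y² + (c₀ x + c₁) y = x (x - 1) (x + c₂)`, with the points `(0, 0)` and `(1, 0)`. -/
def curves2 (c : Fin 3 → ℤ) : WeierstrassCurve ℤ := ⟨c 0, c 2 - 1, c 1, -c 2, 0⟩

/-- The polynomial `w = u² - 30`, `u = c₀`. -/
def w (c : Fin 2 → ℤ) : ℤ := c 0 ^ 2 - 30

/-- The polynomial `G = 8 u v + 1092 - w²`, `u = c₀`, `v = c₁`. -/
def G (c : Fin 2 → ℤ) : ℤ := 8 * c 0 * c 1 + 1092 - w c ^ 2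

/-- `y² + 2 w x y + (16 (v² - 820) - 2 w G) y = x (x - G - 192) (x - G + 192)`, a model of
`Y² = X (u X + v)² + (X - 1) (X - 4) (X - 9) (X - 16)`. -/
def curves6 (c : Fin 2 → ℤ) : WeierstrassCurve ℤ :=
  ⟨2 * w c, -2 * G c, 16 * (c 1 ^ 2 - 820) - 2 * w c * G c, G c ^ 2 - 36864, 0⟩

/-- The first coordinate of the point of `curves6 c` over `X = i²`. -/
def ξ (c : Fin 2 → ℤ) (i : ℤ) : ℤ := 8 * i * (c 0 * i ^ 2 + c 1) + 8 * i ^ 4 + 4 * w c * i ^ 2 + G c

/-- The six marked points of `curves6 c`. -/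
def marks (c : Fin 2 → ℤ) : Fin 6 → ℤ × ℤ :=
  ![(0, 0), (G c + 192, 0), (ξ c 1, 4 * ξ c 1), (ξ c 2, 16 * ξ c 2), (ξ c 3, 36 * ξ c 3),
    (ξ c 4, 64 * ξ c 4)]

/-- The proportion of the vectors `c` with coordinates of absolute value at most `H` which have the property `P`. -/
noncomputable def proportion {n : ℕ} (H : ℕ) (P : (Fin n → ℤ) → Prop) : ℝ :=
  ({c : Fin n → ℤ | (∀ i, |c i| ≤ H) ∧ P c}.ncard : ℝ) / (2 * H + 1 : ℝ) ^ n

/-- For every `δ > 0` there is a `K` such that for all `A > 0` and all `H` the proportion of the `c` in the box of size `H` such that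
`|log P(x) - κ log log x| > A (1 + log log x) ^ (1/2) (1 + log (1 + log log x)) ^ (1/4 + δ)` for some `x ≥ 3` with
`x ^ 11 ≤ H`, where `P(x)` is the product for the curve `W c`, is at most `K / A ^ 4`. -/
def FollowsPower {n : ℕ} (W : (Fin n → ℤ) → WeierstrassCurve ℤ) (κ : ℝ) : Prop :=
  ∀ δ : ℝ, 0 < δ → ∃ K : ℝ, 0 ≤ K ∧ ∀ A : ℝ, 0 < A → ∀ H : ℕ,
    proportion H (fun c => ∃ x : ℕ, 3 ≤ x ∧ x ^ 11 ≤ H ∧
      A * (√(1 + Real.log (Real.log x)) * (1 + Real.log (1 + Real.log (Real.log x))) ^ (1 / 4 + δ)) <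
        |Real.log (product (W c) x) - κ * Real.log (Real.log x)|) ≤ K / A ^ 4

theorem product_eq (E : WeierstrassCurve ℤ) (x : ℕ) : product E x = Pool.Agent.X280.BP.bsd E x := by
  classical
  unfold product Pool.Agent.X280.BP.bsd
  refine Finset.prod_congr ?_ fun p _ => rfl
  ext p
  rw [Finset.mem_filter, Finset.mem_filter]
  rfl

open Pool.Agent.X280.BP Pool.Agent.X280.HP Pool.Agent.U62.BM in
theorem follows_of {n : ℕ} {W : (Fin n → ℤ) → WeierstrassCurve ℤ}
    {V : ∀ p : ℕ, (Fin n → ZMod p) → WeierstrassCurve (ZMod p)} (h : Red W V) {r C : ℝ}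
    (D : Dat (trc V) (fun p c => (V p c).Δ ≠ 0) r C) : FollowsPower W (r + 1 / 2) := by
  classical
  intro δ hδ
  obtain ⟨K0, hK0, hnear⟩ := D.near
  obtain ⟨K, hK, hrate⟩ := rate_abs D.sys (r + 1 / 2) (K0 + 2) (by positivity)
    (fun y c => lq (W c) y) (fun y c => by
      have h1 := abs_le.mp (hnear y c)
      have h2 := abs_le.mp (h.lq_near y c)
      rw [abs_le]
      constructor <;> linarith [h1.1, h1.2, h2.1, h2.2]) hδ
  refine ⟨K, hK, fun A hA H => ?_⟩
  have h2 := hrate A hA H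
  rw [← ncard_box, Fintype.card_fin] at h2
  unfold proportion
  rw [div_le_iff₀ (by positivity)]
  refine le_trans (le_of_eq ?_) h2
  have e2 : ∀ (c : Fin n → ℤ) (x : ℕ), Real.log (product (W c) x) = lq (W c) x := by
    intro c x
    rw [product_eq, bsd_eq, Real.log_exp]
  simp only [e2]
  rfl

/-- **The original products of Birch and Swinnerton-Dyer follow the power `(log x) ^ (r + 1/2)` for almost all curves in
families with `r = 0, 1, 2, 6` marked points, for all `x` up to a power of the height, with an error of almost the order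
of the law of the iterated logarithm.** -/
theorem result :
    FollowsPower curves0 (1 / 2) ∧
    ((∀ c, On (curves1 c) (0, 0)) ∧ FollowsPower curves1 (3 / 2)) ∧
    ((∀ c, On (curves2 c) (0, 0) ∧ On (curves2 c) (1, 0)) ∧ FollowsPower curves2 (5 / 2)) ∧
    ((∀ c i, On (curves6 c) (marks c i)) ∧ FollowsPower curves6 (13 / 2)) := by
  refine ⟨?_, ⟨fun c => Pool.Agent.X280.HP.on1 c, ?_⟩, ⟨fun c => Pool.Agent.X280.HP.on2 c, ?_⟩,
    ⟨fun c i => Pool.Agent.X280.HP.on6 c i, ?_⟩⟩
  · have h := follows_of Pool.Agent.X280.HP.redV0 Pool.Agent.X280.BP.dat0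
    norm_num at h
    exact h
  · have h := follows_of Pool.Agent.X280.HP.redV1 Pool.Agent.X280.BP.dat1
    norm_num at h
    exact h
  · have h := follows_of Pool.Agent.X280.HP.redV2 Pool.Agent.X280.BP.dat2
    norm_num at h
    exact h
  · have h := follows_of Pool.Agent.X280.HP.redV6 Pool.Agent.X280.BP.dat6
    norm_num at h
    exact h

end Pool.Agent.Results.MP_3283e1_nt.AlmostAllCurves
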