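import Pool.Agent.U62.SC.Fam

/-!
# The partial Euler products of random elliptic curves at the points of the line `Re s = 1`: a law of Selberg type

The product of Birch and Swinnerton-Dyer is, up to the factors at the primes dividing `6 Δ`, the inverse of the partial Euler
product `L_T(s)`, the product of `(1 - a_p p ^ (-s) + p ^ (1 - 2 s)) ^ (-1)` over `p ≤ T`, at the central point `s = 1`; by
the theorem of Goldfeld the asymptotic formula of Birch and Swinnerton-Dyer implies the Riemann hypothesis for `L(s, E)`, that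
is the nonvanishing away from the central line.  We find the joint limit law, as `T → ∞`, of `log |L_T(1 + i t)|` at finitely many
points `t ≥ 0` of this line, for random curves of the families with `r = 0`, `1`, `2` or `6` marked points and coefficients
in a box of size `H ≥ T ^ K`:

* at the central point `t = 0` there is the drift `-(r + 1/2) log log T` and the variance is `log log T`;
* at the points `t > 0` there is no drift at all and the variance is `(log log T) / 2`, as in the theorem of Selberg for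
  the Riemann zeta function on the critical line;
* the values at different points are asymptotically independent.
-/

set_option autoImplicit false

namespace Pool.Agent.Results.MP_3283e1_nt.CriticalLine

open Finset MeasureTheory ProbabilityTheory

/-- The number of the points modulo `p` of the Weierstrass equation `E`, including the point at infinity. -/
noncomputable def numPoints (E : WeierstrassCurve ℤ) (p : ℕ) : ℕ :=
  Nat.card {q : ZMod p × ZMod p // q.2 ^ 2 + (E.a₁ : ZMod p) * q.1 * q.2 + (E.a₃ : ZMod p) * q.2 =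
    q.1 ^ 3 + (E.a₂ : ZMod p) * q.1 ^ 2 + (E.a₄ : ZMod p) * q.1 + (E.a₆ : ZMod p)} + 1

open Classical in
/-- The partial Euler product at `s` over the primes `p ≤ T` which do not divide `6 Δ`. -/
noncomputable def eulerProduct (E : WeierstrassCurve ℤ) (T : ℕ) (s : ℂ) : ℂ :=
  ∏ p ∈ (range (T + 1)).filter (fun p : ℕ => p.Prime ∧ ¬ (p : ℤ) ∣ 6 * E.Δ),
    (1 - ((p : ℂ) + 1 - numPoints E p) * (p : ℂ) ^ (-s) + (p : ℂ) ^ (1 - 2 * s))⁻¹

/-- The point `q` lies on the curve `E`. -/
def On (E : WeierstrassCurve ℤ) (q : ℤ × ℤ) : Prop :=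
  q.2 ^ 2 + E.a₁ * q.1 * q.2 + E.a₃ * q.2 = q.1 ^ 3 + E.a₂ * q.1 ^ 2 + E.a₄ * q.1 + E.a₆

/-- `y² = x³ + c₀ x + c₁`. -/
def curves0 (c : Fin 2 → ℤ) : WeierstrassCurve ℤ := ⟨0, 0, 0, c 0, c 1⟩

/-- `y² + c₀ x y + c₂ y = x³ + c₁ x² + c₃ x`, with the point `(0, 0)`. -/
def curves1 (c : Fin 4 → ℤ) : WeierstrassCurve ℤ := ⟨c 0, c 1, c 2, c 3, 0⟩

/-- `y² + (c₀ x + c₁) y = x (x - 1) (x + c₂)`, with the points `(0, 0)` and `(1, 0)`. -/
def curves2 (c : Fin 3 → ℤ) : WeierstrassCurve ℤ := ⟨c 0, c 2 - 1, c 1, -c 2, 0⟩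

/-- The polynomial `w = u² - 30`, `u = c₀`. -/
def w (c : Fin 2 → ℤ) : ℤ := c 0 ^ 2 - 30

/-- The polynomial `G = 8 u v + 1092 - w²`, `u = c₀`, `v = c₁`. -/
def G (c : Fin 2 → ℤ) : ℤ := 8 * c 0 * c 1 + 1092 - w c ^ 2

/-- `y² + 2 w x y + (16 (v² - 820) - 2 w G) y = x (x - G - 192) (x - G + 192)`, a model of
`Y² = X (u X + v)² + (X - 1) (X - 4) (X - 9) (X - 16)`. -/
def curves6 (c : Fin 2 → ℤ) : WeierstrassCurve ℤ :=
  ⟨2 * w c, -2 * G c, 16 * (c 1 ^ 2 - 820) - 2 * w c * G c, G c ^ 2 - 36864, 0⟩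

/-- The first coordinate of the point of `curves6 c` over `X = i²`. -/
def ξ (c : Fin 2 → ℤ) (i : ℤ) : ℤ := 8 * i * (c 0 * i ^ 2 + c 1) + 8 * i ^ 4 + 4 * w c * i ^ 2 + G c

/-- The six marked points of `curves6 c`. -/
def marks (c : Fin 2 → ℤ) : Fin 6 → ℤ × ℤ :=
  ![(0, 0), (G c + 192, 0), (ξ c 1, 4 * ξ c 1), (ξ c 2, 16 * ξ c 2), (ξ c 3, 36 * ξ c 3),
    (ξ c 4, 64 * ξ c 4)]

/-- The proportion of the vectors `c` with coordinates of absolute value at most `H` which have the property `P`. -/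
noncomputable def proportion {n : ℕ} (H : ℕ) (P : (Fin n → ℤ) → Prop) : ℝ :=
  ({c : Fin n → ℤ | (∀ i, |c i| ≤ H) ∧ P c}.ncard : ℝ) / (2 * H + 1 : ℝ) ^ n

open Classical in
/-- The coefficient of `- log log T` in the mean: `r + 1/2` at the central point and `0` at the other points. -/
noncomputable def drift (r t : ℝ) : ℝ := if t = 0 then r + 1 / 2 else 0

open Classical in
/-- The coefficient of `log log T` in the variance: `1` at the central point and `1/2` at the other points. -/
noncomputable def variance (t : ℝ) : ℝ := if t = 0 then 1 else 1 / 2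

/-- The joint law of the logarithms of the absolute values of the partial Euler products at `1 + i t_j`, for distinct `t_j ≥ 0`. -/
def SelbergLaw {n : ℕ} (W : (Fin n → ℤ) → WeierstrassCurve ℤ) (r : ℝ) : Prop :=
  ∀ (k : ℕ) (t : Fin k → ℝ), (∀ j, 0 ≤ t j) → Function.Injective t → ∀ (u : Fin k → ℝ) (ε : ℝ), 0 < ε →
    ∃ K : ℕ, ∀ T H : ℕ, K ≤ T → T ^ K ≤ H →
      |proportion H (fun c => ∀ j, Real.log ‖eulerProduct (W c) T (1 + t j * Complex.I)‖ +
          drift r (t j) * Real.log (Real.log T) ≤ u j * √(variance (t j) * Real.log (Real.log T))) -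
        ∏ j, (gaussianReal 0 1).real (Set.Iic (u j))| ≤ ε

open Pool.Agent.X280.BP Pool.Agent.X280.HP Pool.Agent.U62.SC in
theorem selberg_of {n : ℕ} {W : (Fin n → ℤ) → WeierstrassCurve ℤ}
    {V : ∀ p : ℕ, (Fin n → ZMod p) → WeierstrassCurve (ZMod p)} (h : Red W V) {r C : ℝ}
    (D : Dat (trc V) (fun p c => (V p c).Δ ≠ 0) r C) : SelbergLaw W r := by
  classical
  intro k t ht0 hti u ε hε
  obtain ⟨K, hK⟩ := crit_law D t ht0 hti (B0 := 0)
    (fun T c i => Real.log ‖pep (W c) T (1 + t i * Complex.I)‖) (fun T c i => by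
      rw [pep_lel h D.hasse, sub_self, abs_zero]) u hε
  refine ⟨K, fun T H hT hH => ?_⟩
  refine le_trans (le_of_eq ?_) (hK T H hT hH)
  have e1 : ∀ j, cen r T (t j) = drift r (t j) * Real.log (Real.log T) := by
    intro j
    unfold cen drift
    split_ifs <;> ring
  have e2 : ∀ j, nu (t j) = variance (t j) := by
    intro j
    unfold nu variance
    split_ifs <;> rfl
  simp only [e1, e2]
  rfl

/-- **The joint law of the partial Euler products on the line `Re s = 1`, for families with `r = 0, 1, 2, 6` marked points.** -/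
theorem result :
    SelbergLaw curves0 0 ∧
    ((∀ c, On (curves1 c) (0, 0)) ∧ SelbergLaw curves1 1) ∧
    ((∀ c, On (curves2 c) (0, 0) ∧ On (curves2 c) (1, 0)) ∧ SelbergLaw curves2 2) ∧
    ((∀ c i, On (curves6 c) (marks c i)) ∧ SelbergLaw curves6 6) :=
  ⟨selberg_of Pool.Agent.X280.HP.redV0 Pool.Agent.X280.BP.dat0,
    ⟨fun c => Pool.Agent.X280.HP.on1 c, selberg_of Pool.Agent.X280.HP.redV1 Pool.Agent.X280.BP.dat1⟩,
    ⟨fun c => Pool.Agent.X280.HP.on2 c, selberg_of Pool.Agent.X280.HP.redV2 Pool.Agent.X280.BP.dat2⟩,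
    ⟨fun c i => Pool.Agent.X280.HP.on6 c i, selberg_of Pool.Agent.X280.HP.redV6 Pool.Agent.X280.BP.dat6⟩⟩

end Pool.Agent.Results.MP_3283e1_nt.CriticalLine
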