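import Pool.Agent.U581.BS.Crit2

/-!
# The partial Euler products of random elliptic curves on the line `Re s = 1` as processes: independent Brownian motions

The product of Birch and Swinnerton-Dyer is, up to the factors at the primes dividing `6 Δ`, the inverse of the partial Euler
product `L_x(s)`, the product of `(1 - a_p p ^ (-s) + p ^ (1 - 2 s)) ^ (-1)` over `p ≤ x`, at the central point `s = 1`; by
the theorem of Goldfeld the asymptotic formula of Birch and Swinnerton-Dyer implies the Riemann hypothesis for `L(s, E)`, that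
is the nonvanishing away from the central line.

We consider random curves of the families with `r = 0`, `1`, `2` or `6` marked points with coefficients in a box of size
`H ≥ y ^ K`, and finitely many points `1 + i t_j`, `t_j ≥ 0`. The functions
`x ↦ log |L_x(1 + i t_j)| + d_j log log x`, `x ≤ y`, with `d_j = r + 1/2` at the central point `t_j = 0` and `d_j = 0` at the
points `t_j > 0`, considered as functions of `log log x / log log y` and divided by `(v_j log log y) ^ (1/2)`, with `v_j = 1` at
the central point and `v_j = 1/2` at the others, are random continuous functions on `[0, 1]`. The theorem: for `y → ∞`,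
`log H / log y → ∞` they converge in distribution, in the space of the `k`-tuples of continuous functions on `[0, 1]`, to
`k` independent Brownian motions.

So the whole development of the product at the central point (where the question of Birch and Swinnerton-Dyer is posed)
is asymptotically independent of the whole development of the products at the other points of the line, and
the law of every continuous functional of the paths, such as the maxima over `x ≤ y`, converges.
-/

set_option autoImplicit false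

namespace Pool.Agent.Results.MP_3283e1_nt.CriticalLineProcess

open Finset MeasureTheory ProbabilityTheory
open scoped BoundedContinuousFunction NNReal

/-- The number of the points modulo `p` of the Weierstrass equation `E`, including the point at infinity. -/
noncomputable def numPoints (E : WeierstrassCurve ℤ) (p : ℕ) : ℕ :=
  Nat.card {q : ZMod p × ZMod p // q.2 ^ 2 + (E.a₁ : ZMod p) * q.1 * q.2 + (E.a₃ : ZMod p) * q.2 =
    q.1 ^ 3 + (E.a₂ : ZMod p) * q.1 ^ 2 + (E.a₄ : ZMod p) * q.1 + (E.a₆ : ZMod p)} + 1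

open Classical in
/-- The partial Euler product at `s` over the primes `p ≤ T` which do not divide `6 Δ`. -/
noncomputable def eulerProduct (E : WeierstrassCurve ℤ) (T : ℕ) (s : ℂ) : ℂ :=
  ∏ p ∈ (range (T + 1)).filter (fun p : ℕ => p.Prime ∧ ¬ (p : ℤ) ∣ 6 * E.Δ),
    (1 - ((p : ℂ) + 1 - numPoints E p) * (p : ℂ) ^ (-s) + (p : ℂ) ^ (1 - 2 * s))⁻¹

/-- The point `q` lies on the curve `E`. -/
def On (E : WeierstrassCurve ℤ) (q : ℤ × ℤ) : Prop :=
  q.2 ^ 2 + E.a₁ * q.1 * q.2 + E.a₃ * q.2 = q.1 ^ 3 + E.a₂ * q.1 ^ 2 + E.a₄ * q.1 + E.a₆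

/-- `y² = x³ + c₀ x + c₁`. -/
def curves0 (c : Fin 2 → ℤ) : WeierstrassCurve ℤ := ⟨0, 0, 0, c 0, c 1⟩

/-- `y² + c₀ x y + c₂ y = x³ + c₁ x² + c₃ x`, with the point `(0, 0)`. -/
def curves1 (c : Fin 4 → ℤ) : WeierstrassCurve ℤ := ⟨c 0, c 1, c 2, c 3, 0⟩

/-- `y² + (c₀ x + c₁) y = x (x - 1) (x + c₂)`, with the points `(0, 0)` and `(1, 0)`. -/
def curves2 (c : Fin 3 → ℤ) : WeierstrassCurve ℤ := ⟨c 0, c 2 - 1, c 1, -c 2, 0⟩

/-- The polynomial `w = u² - 30`, `u = c₀`. -/
def w (c : Fin 2 → ℤ) : ℤ := c 0 ^ 2 - 30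

/-- The polynomial `G = 8 u v + 1092 - w²`, `u = c₀`, `v = c₁`. -/
def G (c : Fin 2 → ℤ) : ℤ := 8 * c 0 * c 1 + 1092 - w c ^ 2

/-- `y² + 2 w x y + (16 (v² - 820) - 2 w G) y = x (x - G - 192) (x - G + 192)`, a model of
`Y² = X (u X + v)² + (X - 1) (X - 4) (X - 9) (X - 16)`. -/
def curves6 (c : Fin 2 → ℤ) : WeierstrassCurve ℤ :=
  ⟨2 * w c, -2 * G c, 16 * (c 1 ^ 2 - 820) - 2 * w c * G c, G c ^ 2 - 36864, 0⟩

/-- The first coordinate of the point of `curves6 c` over `X = i²`. -/
def ξ (c : Fin 2 → ℤ) (i : ℤ) : ℤ := 8 * i * (c 0 * i ^ 2 + c 1) + 8 * i ^ 4 + 4 * w c * i ^ 2 + G c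

/-- The six marked points of `curves6 c`. -/
def marks (c : Fin 2 → ℤ) : Fin 6 → ℤ × ℤ :=
  ![(0, 0), (G c + 192, 0), (ξ c 1, 4 * ξ c 1), (ξ c 2, 16 * ξ c 2), (ξ c 3, 36 * ξ c 3),
    (ξ c 4, 64 * ξ c 4)]

open Classical in
/-- The coefficient of `- log log x` in the mean: `r + 1/2` at the central point and `0` at the other points. -/
noncomputable def drift (r t : ℝ) : ℝ := if t = 0 then r + 1 / 2 else 0

open Classical in
/-- The coefficient of `log log x` in the variance: `1` at the central point and `1/2` at the other points. -/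
noncomputable def variance (t : ℝ) : ℝ := if t = 0 then 1 else 1 / 2

/-- The double logarithm. -/
noncomputable def loglog (x : ℕ) : ℝ := Real.log (Real.log x)

/-- The normalised deviation of the logarithm of the partial product at `1 + i t` from its mean. -/
noncomputable def deviation (E : WeierstrassCurve ℤ) (r t : ℝ) (x : ℕ) : ℝ :=
  (Real.log ‖eulerProduct E x (1 + t * Complex.I)‖ + drift r t * loglog x) / √(variance t)

/-- The path of `E` at `1 + i t` up to `y`: the polygonal path with the value `deviation E r t x / (log log y) ^ (1 / 2)` at the time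
`log log x / log log y` for the integers `2 ≤ x ≤ y` with `log log x ≥ 0`, linear in between. -/
noncomputable def path (E : WeierstrassCurve ℤ) (r t : ℝ) (y : ℕ) : C(unitInterval, ℝ) where
  toFun τ := (deviation E r t 2 + ∑ x ∈ Finset.Ico 2 y, (deviation E r t (x + 1) - deviation E r t x) *
    max 0 (min 1 ((τ * loglog y - loglog x) / (loglog (x + 1) - loglog x)))) / √(loglog y)
  continuous_toFun := by fun_prop

/-- The mean value of `f` over the integer vectors `c` with coordinates of absolute value at most `H`. -/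
noncomputable def average {n : ℕ} (H : ℕ) (f : (Fin n → ℤ) → ℝ) : ℝ :=
  (∑ c ∈ Fintype.piFinset (fun _ : Fin n => Finset.Icc (-(H : ℤ)) H), f c) / (2 * H + 1 : ℝ) ^ n

/-- The path of `B` on `[0, 1]` as a continuous function (and `0` if it is not continuous). -/
noncomputable def unitPath {Ω : Type} (B : ℝ≥0 → Ω → ℝ) (ω : Ω) : C(unitInterval, ℝ) :=
  ContinuousMap.mkD (fun t : unitInterval => B ⟨(t : ℝ), t.2.1⟩ ω) 0

/-- For distinct `t_j ≥ 0` the random functions `path (W c) r (t j) y` of the curves `W c` with `c` in the box of size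
`H ≥ y ^ K` are for large `y` and `K` in joint distribution near to independent Brownian motions: for every bounded continuous
function `F` on `C[0, 1] ^ k` and every `ε > 0` the average of `F` over the paths differs from the mean value of `F` of the
Brownian motions by at most `ε`. -/
def ProcessLaw {n : ℕ} (W : (Fin n → ℤ) → WeierstrassCurve ℤ) (r : ℝ) : Prop :=
  ∀ (k : ℕ) (t : Fin k → ℝ), (∀ j, 0 ≤ t j) → Function.Injective t →
    ∀ (Ω : Type) [MeasurableSpace Ω] (μ : Measure Ω) [IsProbabilityMeasure μ] (B : Fin k → ℝ≥0 → Ω → ℝ),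
      (∀ j, IsBrownianReal (B j) μ) → iIndepFun (fun j ω s => B j s ω) μ →
        ∀ (F : (Fin k → C(unitInterval, ℝ)) →ᵇ ℝ) (ε : ℝ), 0 < ε →
          ∃ K : ℕ, ∀ y H : ℕ, K ≤ y → y ^ K ≤ H →
            |average H (fun c => F (fun j => path (W c) r (t j) y)) -
              ∫ ω, F (fun j => unitPath (B j) ω) ∂μ| ≤ ε

open Pool.Agent.X280.BP Pool.Agent.X280.HP Pool.Agent.U581.BS Pool.Agent.U62.SC in
theorem path_eq {n : ℕ} {W : (Fin n → ℤ) → WeierstrassCurve ℤ}
    {V : ∀ p : ℕ, (Fin n → ZMod p) → WeierstrassCurve (ZMod p)} (h : Red W V)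
    (hD : ∀ p : ℕ, p.Prime → 5 ≤ p → ∀ c, |trc V p c| ≤ 2 * √p) (r t : ℝ) (y : ℕ) (c : Fin n → ℤ) :
    path (W c) r t y = lpath (fun m => (lel (trc V) (fun p c => (V p c).Δ ≠ 0) m t c + dr r t * Lg m) /
      √(Pool.Agent.U62.SC.nu t)) y := by
  classical
  ext τ
  have e2 : ∀ x : ℕ, deviation (W c) r t x = (lel (trc V) (fun p c => (V p c).Δ ≠ 0) x t c +
      dr r t * Lg x) / √(Pool.Agent.U62.SC.nu t) := by
    intro x
    have h1 : Real.log ‖eulerProduct (W c) x (1 + t * Complex.I)‖ =
        lel (trc V) (fun p c => (V p c).Δ ≠ 0) x t c := by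
      rw [← pep_lel h hD]
      rfl
    have h2 : variance t = Pool.Agent.U62.SC.nu t := by
      unfold variance Pool.Agent.U62.SC.nu
      split_ifs <;> rfl
    have h3 : drift r t = dr r t := by
      unfold drift dr
      split_ifs <;> rfl
    unfold deviation
    rw [h1, h2, h3]
    rfl
  rw [lpath_apply]
  unfold npoly
  change (deviation (W c) r t 2 + ∑ x ∈ Finset.Ico 2 y, (deviation (W c) r t (x + 1) - deviation (W c) r t x) *
    max 0 (min 1 ((τ * loglog y - loglog x) / (loglog (x + 1) - loglog x)))) / √(loglog y) = _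
  simp only [e2]
  rw [Finset.sum_Ico_eq_sum_range]
  congr 2
  refine Finset.sum_congr rfl fun m _ => ?_
  rw [show 2 + m = m + 2 by ring, show m + 2 + 1 = m + 1 + 2 by ring]
  rfl

open Pool.Agent.X280.BP Pool.Agent.X280.HP Pool.Agent.U581.BS in
theorem process_of {n : ℕ} {W : (Fin n → ℤ) → WeierstrassCurve ℤ}
    {V : ∀ p : ℕ, (Fin n → ZMod p) → WeierstrassCurve (ZMod p)} (h : Red W V) {r C : ℝ}
    (D : Dat (trc V) (fun p c => (V p c).Δ ≠ 0) r C) : ProcessLaw W r := by
  intro k t ht0 hti Ω _ μ _ B hB hI F ε hε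
  let _ : MeasurableSpace C(unitInterval, ℝ) := borel _
  have _ : BorelSpace C(unitInterval, ℝ) := ⟨rfl⟩
  obtain ⟨K, hK⟩ := crit_main D t ht0 hti (⟨hB, hI⟩ : Pool.Agent.U581.FL.IndBrown B μ) F hε
  refine ⟨K, fun y H hy hH => ?_⟩
  have h1 := hK y H hy hH
  simp only [← path_eq h D.hasse] at h1
  unfold Pool.Agent.Y722.HS.EB at h1
  rw [Fintype.card_fin] at h1
  exact h1

/-- **The partial Euler products on the line `Re s = 1` as processes**, for families with `r = 0, 1, 2, 6` marked points. -/
theorem result :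
    ProcessLaw curves0 0 ∧
    ((∀ c, On (curves1 c) (0, 0)) ∧ ProcessLaw curves1 1) ∧
    ((∀ c, On (curves2 c) (0, 0) ∧ On (curves2 c) (1, 0)) ∧ ProcessLaw curves2 2) ∧
    ((∀ c i, On (curves6 c) (marks c i)) ∧ ProcessLaw curves6 6) :=
  ⟨process_of Pool.Agent.X280.HP.redV0 Pool.Agent.X280.BP.dat0,
    ⟨fun c => Pool.Agent.X280.HP.on1 c, process_of Pool.Agent.X280.HP.redV1 Pool.Agent.X280.BP.dat1⟩,
    ⟨fun c => Pool.Agent.X280.HP.on2 c, process_of Pool.Agent.X280.HP.redV2 Pool.Agent.X280.BP.dat2⟩,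
    ⟨fun c i => Pool.Agent.X280.HP.on6 c i, process_of Pool.Agent.X280.HP.redV6 Pool.Agent.X280.BP.dat6⟩⟩

end Pool.Agent.Results.MP_3283e1_nt.CriticalLineProcess
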