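import Pool.Agent.U471.DQ.EC

/-!
# Square root cancellation in the sums of the traces of Frobenius for all the quadratic twists, by all the integers close to
almost all values of a real polynomial, of all the elliptic curves with small coefficients simultaneously

From Mathlib: `Polynomial.eval`, `Polynomial.coeff`, `Polynomial.natDegree`: real polynomials; `Nat.Prime`: primes;
`IsAlgebraic ℚ`: algebraic numbers.

Method: Weyl's inequality without losses for all the coefficients at the same time (an inverse theorem, from the starting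
files for the top coefficient), a discrete Fejer kernel for the integer parts, uniform distribution
in residue classes with a power saving, high moments for all curves and all `x` at the same time; the mean over the twists
is exactly zero; Hasse's bound is from the starting files.
-/

set_option autoImplicit false

namespace Pool.Agent.Results.MP_3283e1_nt.SimultaneousTwists

open Finset

/-- The polynomial `f` is not on a major arc, at the scale `N` and with the parameter `R`: for every integer `l ≠ 0` with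
`|l| ≤ R` there is `1 ≤ j ≤ d` such that `l` times the coefficient of `f` at `X ^ j` has a distance of more than
`R / N ^ j` from all the integers. -/
def Generic (d N : ℕ) (R : ℝ) (f : Polynomial ℝ) : Prop :=
  ∀ l : ℤ, l ≠ 0 → (|l| : ℝ) ≤ R → ∃ j : ℕ, 1 ≤ j ∧ j ≤ d ∧ ∀ b : ℤ, R / (N : ℝ) ^ j < |(l : ℝ) * f.coeff j - b|

/-- `α` has a finite irrationality exponent. -/
def FiniteType (α : ℝ) : Prop := ∃ (w : ℕ) (c : ℝ), 0 < c ∧ ∀ q : ℕ, 1 ≤ q → ∀ a : ℤ, c / (q : ℝ) ^ w ≤ |q * α - a|

/-- The number of the solutions `(x, y)` of `y² = x³ + a x + b` modulo `p`. -/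
def points (p : ℕ) (a b : ℤ) : ℕ :=
  ((range p ×ˢ range p).filter (fun xy : ℕ × ℕ => (p : ℤ) ∣ (xy.2 : ℤ) ^ 2 - ((xy.1 : ℤ) ^ 3 + a * xy.1 + b))).card

/-- The trace of Frobenius `a_p(E) = p + 1 - #E(F_p) = p - points p a b` of `E : y² = x³ + a x + b`, and `0` if `p` divides
`2 (4 a³ + 27 b²)`. -/
noncomputable def trace (a b : ℤ) (p : ℕ) : ℝ :=
  if (p : ℤ) ∣ 2 * (4 * a ^ 3 + 27 * b ^ 2) then 0 else (p : ℝ) - points p a b

/-- The sum of `a_p(E_D) log p` over the primes `p ≤ x` for the quadratic twist `E_D : y² = x³ + a D² x + b D³` of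
`E : y² = x³ + a x + b`. -/
noncomputable def twistSum (a b D : ℤ) (x : ℕ) : ℝ :=
  ∑ p ∈ (range (x + 1)).filter Nat.Prime, trace (a * D ^ 2) (b * D ^ 3) p * Real.log p

/-- **(1)** Let `d ≥ 1` be an integer and `δ > 0`. There are `κ > 0` and `C` such that the following holds for all
`N, R ≥ 1` and for all real polynomials `f` of degree at most `d` which are not on a major arc (`Generic`).

All the integers `0 ≤ n < N` with at most `C N R ^ (- κ)` exceptions are such that for ALL integers `D` with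
`|D - f(n)| ≤ R ^ κ`, ALL the curves `E : y² = x³ + a x + b` with `|a|, |b| ≤ R ^ κ` and ALL `x ≤ R ^ κ`: the sum of
`a_p(E_D) log p` over the primes `p ≤ x` is at most `C x ^ (1 + δ) (1 + log R) ^ (1 / 2)` in absolute value, where `E_D` is
the quadratic twist of `E` by `D`.

**(2)** If a nonconstant coefficient of `f` has a finite irrationality exponent, then (1) applies with `R = N ^ β`, for some
`β > 0` and all large `N`. **(3)** This includes irrational algebraic coefficients. -/
theorem result :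
    (∀ d : ℕ, 1 ≤ d → ∀ δ : ℝ, 0 < δ → ∃ κ C : ℝ, 0 < κ ∧ 0 < C ∧
      ∀ (N : ℕ) (R : ℝ) (f : Polynomial ℝ), 1 ≤ N → 1 ≤ R → f.natDegree ≤ d → Generic d N R f →
      ∃ E : Finset ℕ, (E.card : ℝ) ≤ C * (N * R ^ (-κ)) ∧ ∀ n : ℕ, n < N → n ∉ E →
        ∀ D : ℤ, |(D : ℝ) - f.eval (n : ℝ)| ≤ R ^ κ → ∀ a b : ℤ, (|a| : ℝ) ≤ R ^ κ → (|b| : ℝ) ≤ R ^ κ →
        ∀ x : ℕ, (x : ℝ) ≤ R ^ κ → |twistSum a b D x| ≤ C * ((x : ℝ) ^ (1 + δ) * √(1 + Real.log R))) ∧
    (∀ (d : ℕ) (f : Polynomial ℝ), (∃ j, 1 ≤ j ∧ j ≤ d ∧ FiniteType (f.coeff j)) →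
      ∃ β : ℝ, 0 < β ∧ ∃ N₀ : ℕ, ∀ N : ℕ, N₀ ≤ N → Generic d N ((N : ℝ) ^ β) f) ∧
    (∀ α : ℝ, Irrational α → IsAlgebraic ℚ α → FiniteType α) := by
  classical
  refine ⟨?_, ?_, fun α h h' => Pool.Agent.U471.DQ.finType_alg h h'⟩
  · intro d hd δ hδ
    obtain ⟨κ, C, h1, h1', h3, H⟩ := Pool.Agent.U471.DQ.near_sum_fin 1 d hd 9 (by norm_num) (δ / 2) (by positivity)
    obtain ⟨κ', hκ'⟩ : ∃ κ' : ℝ, κ' = κ / 2 := ⟨_, rfl⟩
    have hκ'0 : 0 < κ' := by rw [hκ']; positivity
    have hκ2 : κ' + κ' = κ := by rw [hκ']; ring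
    refine ⟨κ', C * (4 / δ) + C, hκ'0, by positivity, ?_⟩
    intro N R f hN hR hf hgen
    have hR0 : 0 < R := by linarith
    have hRκ : 1 ≤ R ^ κ' := Real.one_le_rpow hR hκ'0.le
    obtain ⟨T, hT⟩ : ∃ T : ℕ, T = ⌊R ^ κ'⌋₊ := ⟨_, rfl⟩
    have hTr : (T : ℝ) ≤ R ^ κ' := by rw [hT]; exact Nat.floor_le (by positivity)
    obtain ⟨S, hS⟩ : ∃ S : Finset (ℤ × ℤ), S = Icc (-(T : ℤ)) T ×ˢ Icc (-(T : ℤ)) T := ⟨_, rfl⟩
    have hSc : (S.card : ℝ) ≤ 9 * R ^ κ := by
      rw [hS, card_product, Int.card_Icc]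
      have e1 : ((T : ℤ) + 1 - -(T : ℤ)).toNat = 2 * T + 1 := by omega
      rw [e1]
      push_cast
      have h5 : 2 * (T : ℝ) + 1 ≤ 3 * R ^ κ' := by linarith
      calc (2 * (T : ℝ) + 1) * (2 * T + 1) ≤ (3 * R ^ κ') * (3 * R ^ κ') := mul_le_mul h5 h5 (by positivity) (by positivity)
        _ = 9 * (R ^ κ' * R ^ κ') := by ring
        _ = _ := by rw [← Real.rpow_add hR0, hκ2]
    have hgen' : Pool.Agent.U471.DQ.Gen d N R (fun _ : Fin 1 => f) := by
      intro l hl hlR
      have hl0 : l 0 ≠ 0 := by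
        intro h0
        apply hl
        funext i
        have hi : i = 0 := Subsingleton.elim _ _
        subst hi
        exact h0
      obtain ⟨j, h4, h5, h6⟩ := hgen (l 0) hl0 (hlR 0)
      refine ⟨j, h4, h5, fun b => ?_⟩
      rw [Fin.sum_univ_one]
      exact h6 b
    obtain ⟨E, _, hE2, hE3⟩ := H N R (fun _ => f) hN hR (fun _ => hf) hgen' (ℤ × ℤ) S hSc
      (fun q p z => trace (q.1 * z 0 ^ 2) (q.2 * z 0 ^ 3) p * Real.log p) (fun _ X => 2 * √(X : ℝ) * Real.log X) (by
        intro q p _ u u' hu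
        have e1 : trace (q.1 * u 0 ^ 2) (q.2 * u 0 ^ 3) p = trace (q.1 * u' 0 ^ 2) (q.2 * u' 0 ^ 3) p := by
          apply Pool.Agent.U471.DQ.EC.ap_congr
          · have e : q.1 * u 0 ^ 2 - q.1 * u' 0 ^ 2 = (u 0 - u' 0) * (q.1 * (u 0 + u' 0)) := by ring
            rw [e]
            exact (hu 0).mul_right _
          · have e : q.2 * u 0 ^ 3 - q.2 * u' 0 ^ 3 = (u 0 - u' 0) * (q.2 * (u 0 ^ 2 + u 0 * u' 0 + u' 0 ^ 2)) := by ring
            rw [e]
            exact (hu 0).mul_right _
        simp only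
        rw [e1]) (fun _ X => by
          have := Real.log_natCast_nonneg X
          positivity) (by
        intro q X p u hp hpX
        have hp1 : (1 : ℝ) ≤ p := by exact_mod_cast hp.one_le
        have hpX' : (p : ℝ) ≤ X := by exact_mod_cast hpX
        have hlog : 0 ≤ Real.log p := Real.log_nonneg hp1
        rw [abs_mul, abs_of_nonneg hlog]
        apply mul_le_mul _ (Real.log_le_log (by linarith) hpX') hlog (by positivity)
        refine (Pool.Agent.U471.DQ.EC.ap_abs hp _ _).trans ?_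
        exact mul_le_mul_of_nonneg_left (Real.sqrt_le_sqrt hpX') (by norm_num))
    have hpow : R ^ κ' ≤ R ^ κ := Real.rpow_le_rpow_of_exponent_le hR (by linarith)
    refine ⟨E, ?_, fun n hn hnE D hD a b ha hb x hx => ?_⟩
    · refine hE2.trans ?_
      calc C * (N * R ^ (-κ)) ≤ C * (N * R ^ (-κ')) := by
            apply mul_le_mul_of_nonneg_left _ (by linarith)
            apply mul_le_mul_of_nonneg_left _ (Nat.cast_nonneg _)
            apply Real.rpow_le_rpow_of_exponent_le hR
            linarith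
        _ ≤ _ := by
            apply mul_le_mul_of_nonneg_right _ (by positivity)
            have : 0 ≤ C * (4 / δ) := by positivity
            linarith
    · have hmem : ∀ c : ℤ, (|c| : ℝ) ≤ R ^ κ' → c ∈ Icc (-(T : ℤ)) T := by
        intro c hc
        have h4 : |c|.toNat ≤ T := by
          rw [hT]
          apply Nat.le_floor
          have : ((|c|.toNat : ℕ) : ℝ) = |(c : ℝ)| := by
            have h5 : ((|c|.toNat : ℕ) : ℤ) = |c| := Int.toNat_of_nonneg (abs_nonneg c)
            have h6 : (((|c|.toNat : ℕ) : ℤ) : ℝ) = ((|c| : ℤ) : ℝ) := by rw [h5]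
            push_cast at h6
            exact h6
          rw [this]
          exact hc
        rw [mem_Icc]
        apply abs_le.1
        have h5 : ((|c|.toNat : ℕ) : ℤ) = |c| := Int.toNat_of_nonneg (abs_nonneg c)
        omega
      have h7 := hE3 n (mem_range.2 hn) hnE (fun _ => D) (fun _ => hD.trans hpow) (a, b) (by
        rw [hS, mem_product]
        exact ⟨hmem a ha, hmem b hb⟩) x (hx.trans hpow)
      -- the mean is zero
      have e2 : ∑ p ∈ Pool.Agent.U471.DQ.prs x, Pool.Agent.U471.DQ.mn p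
          (fun z : Fin 1 → ℤ => trace (a * z 0 ^ 2) (b * z 0 ^ 3) p * Real.log p) = 0 := by
        apply sum_eq_zero
        intro p hp
        unfold Pool.Agent.U471.DQ.prs at hp
        have hp' : p.Prime := (mem_filter.1 hp).2
        unfold Pool.Agent.U471.DQ.mn Pool.Agent.U471.DQ.rs Pool.Agent.U471.DQ.bx
        have e3 : ∑ t ∈ Fintype.piFinset (fun _ : Fin 1 => range p),
            trace (a * ((t 0 : ℕ) : ℤ) ^ 2) (b * ((t 0 : ℕ) : ℤ) ^ 3) p * Real.log p =
            ∑ t ∈ range p, trace (a * (t : ℤ) ^ 2) (b * (t : ℤ) ^ 3) p * Real.log p := by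
          refine sum_nbij' (fun t => t 0) (fun t _ => t) ?_ ?_ ?_ ?_ ?_
          · intro t ht
            rw [Fintype.mem_piFinset] at ht
            exact ht 0
          · intro t ht
            rw [Fintype.mem_piFinset]
            exact fun _ => ht
          · intro t _
            funext i
            rw [Subsingleton.elim i 0]
          · intro t _
            rfl
          · intro t _
            rfl
        rw [e3, ← sum_mul]
        have e4 := Pool.Agent.U471.DQ.EC.twist_sum hp' a b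
        have e5 : ∑ t ∈ range p, trace (a * (t : ℤ) ^ 2) (b * (t : ℤ) ^ 3) p = 0 := e4
        rw [e5, zero_mul, zero_div]
      have e1 : twistSum a b D x = ∑ p ∈ Pool.Agent.U471.DQ.prs x,
          trace (a * D ^ 2) (b * D ^ 3) p * Real.log p := rfl
      simp only at h7
      rw [e2, sub_zero, ← e1] at h7
      refine h7.trans ?_
      rcases Nat.eq_zero_or_pos x with hx0 | hx0
      · subst hx0
        simp only [Nat.cast_zero, Real.sqrt_zero, mul_zero, zero_mul]
        positivity
      have hx0' : (0 : ℝ) < x := by exact_mod_cast hx0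
      have hlog : Real.log x ≤ (2 / δ) * (x : ℝ) ^ (δ / 2) := by
        have h8 := Real.log_le_rpow_div hx0'.le (by positivity : 0 < δ / 2)
        refine h8.trans (le_of_eq ?_)
        field_simp
      have e4 : (x : ℝ) ^ (1 + δ) = √x * (x : ℝ) ^ (δ / 2) * (x : ℝ) ^ (1 / 2 + δ / 2) := by
        rw [Real.sqrt_eq_rpow, ← Real.rpow_add hx0', ← Real.rpow_add hx0']
        congr 1
        ring
      rw [e4]
      have hsx := Real.sqrt_nonneg (x : ℝ)
      calc C * (2 * √(x : ℝ) * Real.log x * ((x : ℝ) ^ (1 / 2 + δ / 2) * √(1 + Real.log R))) ≤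
            C * (2 * √(x : ℝ) * ((2 / δ) * (x : ℝ) ^ (δ / 2)) * ((x : ℝ) ^ (1 / 2 + δ / 2) * √(1 + Real.log R))) := by
              gcongr
        _ = C * (4 / δ) * (√x * (x : ℝ) ^ (δ / 2) * (x : ℝ) ^ (1 / 2 + δ / 2) * √(1 + Real.log R)) := by ring
        _ ≤ _ := by
            apply mul_le_mul_of_nonneg_right _ (by positivity)
            linarith
  · intro d f h
    obtain ⟨j, h1, h2, h3⟩ := h
    obtain ⟨β, h4, _, N₀, h5⟩ := Pool.Agent.U471.DQ.gen_of_type d (fun _ : Fin 1 => f)
      (fun i => ⟨j, h1, h2, h3, fun i' hne => absurd (Subsingleton.elim i' i) hne⟩)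
    refine ⟨β, h4, N₀, fun N hN l hl hlR => ?_⟩
    obtain ⟨j', h6, h7, h8⟩ := h5 N hN (fun _ => l) (fun h0 => hl (congrFun h0 0)) (fun _ => hlR)
    refine ⟨j', h6, h7, fun b => ?_⟩
    have h9 := h8 b
    rw [Fin.sum_univ_one] at h9
    exact h9

end Pool.Agent.Results.MP_3283e1_nt.SimultaneousTwists
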